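import Pool.Agent.H40.JsRay

set_option autoImplicit false

namespace Pool.Agent.Results.MP_f2f7cf_lc.BaireFails

open Set Filter OnePoint Topology
open Pool.Agent.H40.Bspt Pool.Agent.H40.Jz Pool.Agent.H40.Js Pool.Agent.H40.Js.Ray

variable {M : Type} {E : M → M → Prop}

/-- `𝒜` is a σ-algebra of subsets of `X` -/
def SigmaAlg (E : M → M → Prop) (X 𝒜 : M) : Prop :=
  (∀ U, E U 𝒜 → Sub E U X) ∧ E X 𝒜 ∧
    (∀ U V, E U 𝒜 → (∀ x, E x V ↔ E x X ∧ ¬ E x U) → E V 𝒜) ∧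
    ∀ σ W, (∀ n, E (σ n) 𝒜) → Covers E σ W → E W 𝒜

/-- `B` lies in every σ-algebra that contains the zero sets -/
def BaireSet (ℛ : Reals E) (X T B : M) : Prop :=
  ∀ 𝒜, SigmaAlg E X 𝒜 → (∀ Z, ZeroSet ℛ X T Z → E Z 𝒜) → E B 𝒜

theorem result : ∃ (M : Type) (E : M → M → Prop), IsZF E ∧ ¬ CMC E ∧ ∃ (ℛ : Reals E) (X T B : M),
    IsTop E X T ∧ Realcompact ℛ X T ∧ Sub E B X ∧ BaireSet ℛ X T B ∧ ¬ Realcompact ℛ B T := by
  classical
  obtain ⟨J⟩ := ex_js fx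
  refine ⟨J.M, J.E, J.zf, fun h => ?_, J.reals, J.sA unA, J.T, J.sA X, J.isTop,
    J.rc_of_compact sb isCompact_univ, J.subA_iff.2 (subset_univ _),
    fun 𝒜 h1 h2 => h1.2.2.2 _ _ (fun n => h2 _ ?_) (covers J), J.not_rc sb bad⟩
  · have e : ∀ (g : G) (C : PS G A) n, p n ∈ (g • C).1 ↔ p n ∈ C.1 := fun g C n => by
      rw [Pool.Agent.H40.Js.mem_smul, gp]
    let σ : ℕ → PS G (PS G A) := fun n => ⟨{C | IsClopen C.1 ∧ p n ∈ C.1 ∧ p (n + 1) ∉ C.1},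
      sym_all fun g C h => ⟨h.1.preimage (continuous_const_smul g⁻¹), (e g C n).2 h.2.1,
        mt (e g C _).1 h.2.2⟩⟩
    have hσ : ∀ (g : G) n, ∀ C ∈ (σ n).1, g • C ∈ (σ n).1 := fun g n C h =>
      ⟨h.1.preimage (continuous_const_smul g⁻¹), (e g C n).2 h.2.1, mt (e g C _).1 h.2.2⟩
    obtain ⟨τ, h1, h2⟩ := h _ (J.intl_seq (t := .w (.w .a)) (σ := σ) (Eventually.of_forall
      fun g n => Subtype.ext (Set.ext fun C : PS G A => ⟨fun h => smul_inv_smul g C ▸ hσ g n _ h,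
        hσ g⁻¹ n C⟩))) fun n => ⟨J.sA ⟨_, sym_clopen (L_clopen (J.omE.symm n))⟩,
          J.memS.2 ⟨L_clopen _, by simp, by simp⟩⟩
    choose F h3 h4 using fun n => J.subS (h2 (J.omE n)).1
    obtain ⟨N, hN⟩ := ev_el (J.seq_sym (t := .w (.w .a)) h1 h4)
    obtain ⟨-, h5, x, h6⟩ := h2 (J.omE N)
    rw [h4] at h5 h6
    obtain ⟨C, h7, -⟩ := J.elS h6
    simp only [Equiv.symm_apply_apply] at h3
    have h8 : IsClopen (⋂ C ∈ (F N).1, C.1) := (J.finS.1 h5).isClopen_biInter fun C h => (h3 N h).1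
    have h9 : ∀ g : G, (∀ x ∈ K N, g • x = x) → ∀ x ∈ ⋂ C ∈ (F N).1, C.1,
        g • x ∈ ⋂ C ∈ (F N).1, C.1 := fun g hg x hx => mem_iInter₂.2 fun D hD => by
      have := mem_iInter₂.1 hx (g⁻¹ • D) (show D ∈ (g • F N).1 from (hN g hg N).symm ▸ hD)
      rwa [Pool.Agent.H40.Js.mem_smul, inv_inv] at this
    have := step (f := fun x => if x ∈ ⋂ C ∈ (F N).1, C.1 then true else false)
      (continuous_const.if (fun a ha => (h8.frontier_eq.le ha).elim) continuous_const).continuousOn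
      (fun g hg x _ => if_congr ⟨fun h => inv_smul_smul g x ▸ h9 g⁻¹ (fun y hy =>
        inv_smul_eq_iff.2 (hg y hy).symm) _ h, h9 g hg x⟩ rfl rfl) (N + 1) N.le_succ
    simp only [if_pos (mem_iInter₂.2 fun C h => (h3 N h).2.1 : p N ∈ ⋂ C ∈ (F N).1, C.1)] at this
    rw [if_neg fun h => (h3 N h7).2.2 (mem_iInter₂.1 h C h7)] at this
    exact Bool.noConfusion this
  · generalize J.omE.symm n = n
    obtain ⟨f, h3, h4, h5⟩ := zs (K_closed n) (L_clopen n).2.isClosed_compl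
      (disjoint_compl_right.mono_left sdiff_subset)
    refine J.zero_of sb h3.continuousOn ((fixK (n + 1)).mono fun g hg x _ => ?_) (subset_univ _)
      fun x _ => h4 x
    by_cases hx : x ∈ K (n + 1)
    · rw [hg x hx]
    · rw [h5 _ fun e => hx (LK n.lt_succ_self e), h5 _ fun e => hx ((gK g).1 (LK n.lt_succ_self e))]

end Pool.Agent.Results.MP_f2f7cf_lc.BaireFails
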